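import Pool.Agent.L7h71.GB.Stm

set_option autoImplicit false

/-! [MPR] of project GB (helper71): measurability of presentations and codes. -/

namespace Pool.Agent.L7h6.GBV

open Set Function MeasureTheory
open Pool.Agent.L7h66.UA (XS)
open Pool.Agent.L7h71.GB

theorem s_MPR (hm : S_MTA) (hg : S_GDL) : S_MPR := by
  intro a K _ _ 𝓖 h𝓖
  have hG : ∀ b : Finset ℕ, Measurable fun M : XS a K ℕ => Gd 𝓖 M b := fun b =>
    measurableSet_setOfPred.1 ((hg a K 𝓖).2 h𝓖 b)
  have hPr : ∀ (b : Finset ℕ) (y : ℕ), Measurable fun M : XS a K ℕ => Pr 𝓖 M b y := by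
    intro b y
    unfold Pr
    exact (hG b).and (measurable_const.and (Measurable.forall fun c =>
      (hG c).imp measurable_const))
  constructor
  · have h1 : Measurable fun z : XS a K ℕ × (ℕ → ℕ) => ∀ i, (lst (z.2 i)).Nodup :=
      Measurable.forall fun i => (measurable_of_countable fun n : ℕ => (lst n).Nodup).comp
        ((measurable_pi_apply i).comp measurable_snd)
    have h2 : Measurable fun z : XS a K ℕ × (ℕ → ℕ) =>
        ∀ i, ∃ y, Pr 𝓖 z.1 (lst (z.2 i)).toFinset y := by
      refine Measurable.forall fun i => Measurable.exists fun y => ?_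
      have h3 : Measurable fun p : XS a K ℕ × ℕ => Pr 𝓖 p.1 (lst p.2).toFinset y :=
        measurable_from_prod_countable_left fun n => hPr (lst n).toFinset y
      exact h3.comp (measurable_fst.prodMk ((measurable_pi_apply i).comp measurable_snd))
    have h4 : Measurable fun z : XS a K ℕ × (ℕ → ℕ) =>
        ∀ i j, (lst (z.2 i)).toFinset ⊆ (lst (z.2 j)).toFinset → i = j := by
      refine Measurable.forall fun i => Measurable.forall fun j => ?_
      have h3 : Measurable fun p : ℕ × ℕ => ((lst p.1).toFinset ⊆ (lst p.2).toFinset → i = j) :=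
        measurable_of_countable _
      have h7 : Measurable fun z : XS a K ℕ × (ℕ → ℕ) => ((z.2 i, z.2 j) : ℕ × ℕ) :=
        ((measurable_pi_apply i).comp measurable_snd).prodMk
          ((measurable_pi_apply j).comp measurable_snd)
      exact h3.comp h7
    have h5 : Measurable fun z : XS a K ℕ × (ℕ → ℕ) => ∀ x, ∃ i, x ∈ lst (z.2 i) :=
      Measurable.forall fun x => Measurable.exists fun i =>
        (measurable_of_countable fun n : ℕ => x ∈ lst n).comp
          ((measurable_pi_apply i).comp measurable_snd)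
    have h6 : {z : XS a K ℕ × (ℕ → ℕ) | Pres 𝓖 z.1 z.2} = {z | (∀ i, (lst (z.2 i)).Nodup) ∧
        (∀ i, ∃ y, Pr 𝓖 z.1 (lst (z.2 i)).toFinset y) ∧
        (∀ i j, (lst (z.2 i)).toFinset ⊆ (lst (z.2 j)).toFinset → i = j) ∧
        ∀ x, ∃ i, x ∈ lst (z.2 i)} := by
      ext z
      exact ⟨fun h => ⟨h.1, h.2, h.3, h.4⟩, fun h => ⟨h.1, h.2.1, h.2.2.1, h.2.2.2⟩⟩
    rw [h6]
    exact measurableSet_setOfPred.2 (h1.and (h2.and (h4.and h5)))
  · refine measurable_pi_lambda _ fun m => measurable_pi_lambda _ fun i => ?_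
    have h3 : Measurable fun p : XS a K ℕ × (Fin (m + 1) → ℕ) =>
        tau p.1 (List.ofFn fun j => lst (p.2 j)) :=
      measurable_from_prod_countable_left fun n => hm a K (List.ofFn fun j => lst (n j))
    exact h3.comp (measurable_fst.prodMk (measurable_pi_lambda _ fun j =>
      (measurable_pi_apply (i j)).comp measurable_snd))

end Pool.Agent.L7h6.GBV
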