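import Pool.Agent.L7h71.GB.Stm

set_option autoImplicit false

/-! [MTA] of project GB (helper71): measurability of `tau`. -/

namespace Pool.Agent.L7h6.GBV

open Set Function MeasureTheory
open Pool.Agent.L7h66.UA (XS)
open Pool.Agent.L7h71.GB

theorem measurable_dg {a : ℕ → ℕ} {K : ℕ → Type} [∀ i, MeasurableSpace (K i)]
    (ls : List (List ℕ)) : Measurable fun M : XS a K ℕ => dg M ls := by
  unfold dg
  refine Measurable.prodMk measurable_const (Measurable.prodMk measurable_const ?_)
  refine measurable_pi_lambda _ fun i => measurable_pi_lambda _ fun t => ?_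
  exact (measurable_pi_apply (fun j => pt ls.flatten (t j))).comp (measurable_pi_apply i)

theorem measurable_vl {a : ℕ → ℕ} {K : ℕ → Type} [∀ i, MeasurableSpace (K i)]
    [∀ i, StandardBorelSpace (K i)] (ls : List (List ℕ)) :
    Measurable fun M : XS a K ℕ => vl M ls := by
  unfold vl
  exact (measurable_embeddingReal (DT a K)).comp (measurable_dg ls)

theorem s_MTA : S_MTA := by
  intro a K _ _ ls
  exact Measurable.sInf (f := fun (ls' : List (List ℕ)) (M : XS a K ℕ) => vl M ls')
    (s := {ls' | List.Forall₂ List.Perm ls' ls}) (Set.to_countable _) fun ls' _ => measurable_vl ls'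

end Pool.Agent.L7h6.GBV
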